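import Pool.Agent.H20.RCC.Stmts

set_option autoImplicit false

namespace Pool.RCC

theorem gt_sub_H62 (a c d e : ℕ) (hd : d ≤ 8) (he1 : 1 ≤ e) (he : e ≤ 9) (hc : c ≤ gt (d + 1) a) :
    gt e (a - c * 4 ^ d) = if e = d + 1 then gt e a - c else gt e a := by
  unfold gt at *
  simp only [Nat.add_sub_cancel] at hc
  interval_cases d <;> interval_cases e <;> norm_num at hc ⊢ <;> omega

theorem Mt_sub_H62 {a c d : ℕ} {f g : ℕ → ℕ} (hd : d ≤ 8) (hM : Mt a f) (hc : c ≤ gt (d + 1) a)
    (h1 : gt (d + 1) a - c = 3 ∨ gt (d + 1) a - c = min (g (d + 1)) 2)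
    (h2 : ∀ e, e ≠ d + 1 → g e = f e) : Mt (a - c * 4 ^ d) g := by
  refine ⟨lt_of_le_of_lt (Nat.sub_le _ _) hM.1, ?_⟩
  intro e he1 he2
  rw [gt_sub_H62 a c d e hd he1 he2 hc]
  by_cases h : e = d + 1
  · rw [if_pos h, h]
    exact h1
  · rw [if_neg h, h2 e h]
    exact hM.2 e he1 he2

theorem Mt_congr_H62 {a d : ℕ} {f g : ℕ → ℕ} (hM : Mt a f)
    (h1 : gt d a = 3 ∨ gt d a = min (g d) 2)
    (h2 : ∀ e, e ≠ d → g e = f e) : Mt a g := by
  refine ⟨hM.1, ?_⟩
  intro e he1 he2
  by_cases h : e = d
  · rw [h]
    exact h1
  · rw [h2 e h]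
    exact hM.2 e he1 he2

theorem head_H62 {H : List ℕ} {n : ℕ} (hs : H.Pairwise (· ≥ ·)) (hb : ∀ h ∈ H, h ≤ n)
    (hn : n ∈ H) : ∃ H', H = n :: H' := by
  cases H with
  | nil => simp at hn
  | cons h H' =>
    refine ⟨H', ?_⟩
    have h1 : h ≤ n := hb h (by simp)
    have h2 : n ≤ h := by
      rcases List.mem_cons.1 hn with h3 | h3
      · omega
      · exact (List.pairwise_cons.1 hs).1 n h3
    rw [le_antisymm h1 h2]

theorem HIO_aux_H62 (k : ℕ) (H : List ℕ) (f : ℕ → ℕ) (hk1 : 1 ≤ k)
    (hs : H.Pairwise (· ≥ ·)) (hH : ∀ h ∈ H, k + 1 < h ∧ h ≤ 9)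
    (hf : ∀ d, k + 1 < d → f d = H.count d) :
    ∀ (d a : ℕ), d ≤ 9 → Mt a f → (∀ h ∈ H, h ≤ d) →
    (∀ (h : ℕ) (H' : List ℕ), H = h :: H' →
      ∃ x ∈ hi k d a, x.1 = h ∧ Mt x.2 (fun e => f e - if e = h then 1 else 0)) ∧
    (H = [] → ∃ x ∈ hi k d a, x.1 = k + 1 ∧ Mt x.2 f) := by
  intro d
  induction d with
  | zero =>
    intro a _ hM hb
    constructor
    · intro h H' e
      exfalso
      have h1 := hb h (by rw [e]; simp)
      have h2 := (hH h (by rw [e]; simp)).1
      omega
    · intro _
      exact ⟨(k + 1, a), by simp [hi], rfl, hM⟩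
  | succ d ih =>
    intro a hd hM hb
    have hdown : f (d + 1) = 0 → k < d → ∀ h ∈ H, h ≤ d := by
      intro h0 hkd h hh
      have h1 := hb h hh
      have h2 : h ≠ d + 1 := by
        intro e
        rw [hf (d + 1) (by omega), List.count_eq_zero] at h0
        exact h0 (e ▸ hh)
      omega
    by_cases hkd : d ≤ k
    · have e1 : hi k (d + 1) a = [(k + 1, a)] := by
        rw [hi, if_pos hkd]
      rw [e1]
      constructor
      · intro h H' e
        exfalso
        have h1 := hb h (by rw [e]; simp)
        have h2 := (hH h (by rw [e]; simp)).1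
        omega
      · intro _
        exact ⟨(k + 1, a), by simp, rfl, hM⟩
    · have hkd' : k < d := by omega
      have hcl := hM.2 (d + 1) (by omega) hd
      have hgt : gt (d + 1) a = a / 4 ^ d % 4 := by
        unfold gt
        rfl
      have hlt : a / 4 ^ d % 4 < 4 := Nat.mod_lt _ (by norm_num)
      by_cases c0 : a / 4 ^ d % 4 = 0
      · have e1 : hi k (d + 1) a = hi k d a := by
          rw [hi, if_neg hkd, if_pos c0]
        rw [e1]
        apply ih a (by omega) hM
        apply hdown _ hkd'
        rw [hgt, c0] at hcl
        omega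
      · by_cases hf0 : f (d + 1) = 0
        · -- class 3
          have c3 : a / 4 ^ d % 4 = 3 := by
            rw [hgt, hf0] at hcl
            omega
          have e1 : hi k (d + 1) a = (d + 1, a) :: hi k d (a - 3 * 4 ^ d) := by
            rw [hi, if_neg hkd, if_neg c0, if_neg (by omega), if_neg (by omega)]
          rw [e1]
          have hM' : Mt (a - 3 * 4 ^ d) f := by
            refine Mt_sub_H62 (by omega) hM (by omega) ?_ (fun e _ => rfl)
            right
            rw [hf0, hgt, c3]
            rfl
          obtain ⟨i1, i2⟩ := ih (a - 3 * 4 ^ d) (by omega) hM' (hdown hf0 hkd')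
          constructor
          · intro h H' e
            obtain ⟨x, hx, hx1, hx2⟩ := i1 h H' e
            exact ⟨x, List.mem_cons_of_mem _ hx, hx1, hx2⟩
          · intro e
            obtain ⟨x, hx, hx1, hx2⟩ := i2 e
            exact ⟨x, List.mem_cons_of_mem _ hx, hx1, hx2⟩
        · have hmem : d + 1 ∈ H := by
            rw [hf (d + 1) (by omega)] at hf0
            exact List.count_pos_iff.1 (Nat.pos_of_ne_zero hf0)
          obtain ⟨H0, hH0⟩ := head_H62 hs hb hmem
          constructor
          · intro h H' e
            have hh : h = d + 1 := by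
              rw [hH0] at e
              exact (List.cons_eq_cons.1 e).1.symm
            subst hh
            have hrest : ∀ e, e ≠ d + 1 → (fun e => f e - if e = d + 1 then 1 else 0) e = f e := by
              intro e he
              simp only [if_neg he, Nat.sub_zero]
            by_cases c1 : a / 4 ^ d % 4 = 1
            · have e1 : hi k (d + 1) a = [(d + 1, a - 4 ^ d)] := by
                rw [hi, if_neg hkd, if_neg c0, if_pos c1]
              rw [e1]
              refine ⟨(d + 1, a - 4 ^ d), by simp, rfl, ?_⟩
              have := Mt_sub_H62 (c := 1) (g := fun e => f e - if e = d + 1 then 1 else 0)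
                (show d ≤ 8 by omega) hM (by omega) (by
                  right
                  rw [if_pos rfl]
                  omega) hrest
              rwa [one_mul] at this
            · by_cases c2 : a / 4 ^ d % 4 = 2
              · have e1 : hi k (d + 1) a = [(d + 1, a), (d + 1, a - 4 ^ d)] := by
                  rw [hi, if_neg hkd, if_neg c0, if_neg c1, if_pos c2]
                rw [e1]
                by_cases hf2 : f (d + 1) = 2
                · refine ⟨(d + 1, a - 4 ^ d), by simp, rfl, ?_⟩
                  have := Mt_sub_H62 (c := 1) (g := fun e => f e - if e = d + 1 then 1 else 0)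
                    (show d ≤ 8 by omega) hM (by omega) (by
                      right
                      rw [if_pos rfl]
                      omega) hrest
                  rwa [one_mul] at this
                · refine ⟨(d + 1, a), by simp, rfl, ?_⟩
                  refine Mt_congr_H62 (d := d + 1) hM ?_ hrest
                  right
                  show gt (d + 1) a = _
                  rw [if_pos rfl]
                  omega
              · have e1 : hi k (d + 1) a = (d + 1, a) :: hi k d (a - 3 * 4 ^ d) := by
                  rw [hi, if_neg hkd, if_neg c0, if_neg c1, if_neg c2]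
                rw [e1]
                refine ⟨(d + 1, a), by simp, rfl, ?_⟩
                refine Mt_congr_H62 (d := d + 1) hM ?_ hrest
                left
                show gt (d + 1) a = 3
                omega
          · intro e
            rw [e] at hmem
            simp at hmem

theorem HIO_thm : HIOStmt := by
  intro k a H f hk1 _ hs hH hf hM
  exact HIO_aux_H62 k H f hk1 hs hH hf 9 a le_rfl hM (fun h hh => (hH h hh).2)

end Pool.RCC
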